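import Mathlib

namespace Pool.Agent.Results.MP_628ecd_an.Q1
open Metric Filter Topology
open scoped ENNReal

/-- `T` is bounded below on no closed infinite-dimensional subspace. -/
def StrictlySingular {E : Type} [NormedAddCommGroup E] [NormedSpace ℂ E] (T : E →L[ℂ] E) : Prop :=
  ¬ ∃ (M : Submodule ℂ E) (c : ℝ), IsClosed (M : Set E) ∧ ¬ FiniteDimensional ℂ M ∧ 0 < c ∧
    ∀ x ∈ M, c * ‖x‖ ≤ ‖T x‖

noncomputable abbrev A := lp (fun _ : ℕ => ℂ) 1
noncomputable abbrev B := lp (fun _ : ℕ => ℂ) ∞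
noncomputable abbrev E := A × B

lemma a_le (x : E) (i : ℕ) : ‖x.1 i‖ ≤ ‖x‖ :=
  (lp.norm_apply_le_norm one_ne_zero x.1 i).trans (norm_fst_le x)
lemma b_le (x : E) (i : ℕ) : ‖x.2 i‖ ≤ ‖x‖ :=
  (lp.norm_apply_le_norm ENNReal.top_ne_zero x.2 i).trans (norm_snd_le x)

noncomputable def lam (k : ℕ) : ℂ := (1 / 2) ^ k
lemma nlam (k : ℕ) : ‖lam k‖ = (1 / 2) ^ k := by simp [lam]
lemma nlam_le {k N : ℕ} (h : N ≤ k) : ‖lam k‖ ≤ (1 / 2) ^ N := by
  rw [nlam]; exact pow_le_pow_of_le_one (by norm_num) (by norm_num) h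

noncomputable def coef (x : E) (k : ℕ) : ℂ :=
  if k % 2 = 0 then x.1 (k / 2) + lam (k + 1) * x.2 (k / 2) else x.1 (k / 2)

lemma coef_le (x : E) (k : ℕ) : ‖coef x k‖ ≤ 2 * ‖x‖ := by
  unfold coef
  have h1 := a_le x (k / 2)
  have h2 := b_le x (k / 2)
  have h3 : ‖lam (k + 1)‖ ≤ (1 / 2) ^ 0 := nlam_le (Nat.zero_le _)
  split_ifs
  · refine (norm_add_le _ _).trans ?_
    rw [norm_mul]; nlinarith [norm_nonneg (x.2 (k / 2)), norm_nonneg (lam (k + 1))]
  · linarith [norm_nonneg x]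

noncomputable def F (x : E) (z : ℂ) : ℂ := ∑' k, coef x k * z ^ k

lemma ser (x : E) : HasFPowerSeriesOnBall (F x) (FormalMultilinearSeries.ofScalars ℂ (coef x)) 0 1 := by
  have h1 : (1 : ℝ≥0∞) ≤ (FormalMultilinearSeries.ofScalars ℂ (coef x)).radius :=
    FormalMultilinearSeries.le_radius_of_bound _ (r := 1) (2 * ‖x‖) fun n => by
      simpa [FormalMultilinearSeries.ofScalars_norm] using coef_le x n
  have := ((FormalMultilinearSeries.ofScalars ℂ (coef x)).hasFPowerSeriesOnBall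
    (lt_of_lt_of_le one_pos h1)).mono one_pos h1
  convert this using 1
  funext z
  exact (FormalMultilinearSeries.ofScalars_sum_eq (coef x) z).symm

lemma bd (x : E) (z : ℂ) (k : ℕ) : ‖coef x k * z ^ k‖ ≤ 2 * ‖x‖ * ‖z‖ ^ k := by
  rw [norm_mul, norm_pow]; gcongr; exact coef_le x k

lemma sm (x : E) {z : ℂ} (hz : ‖z‖ < 1) : Summable fun k => coef x k * z ^ k :=
  .of_norm_bounded ((summable_geometric_of_lt_one (norm_nonneg _) hz).mul_left _) (bd x z)

noncomputable def ι : E →ₗ[ℂ] (ball (0 : ℂ) 1 → ℂ) where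
  toFun x z := F x z
  map_add' x y := by
    funext z
    have hz : ‖z.1‖ < 1 := mem_ball_zero_iff.1 z.2
    simp only [F, Pi.add_apply, ← (sm x hz).tsum_add (sm y hz)]
    refine tsum_congr fun k => ?_
    simp only [coef, Prod.fst_add, Prod.snd_add, lp.coeFn_add, Pi.add_apply]
    split_ifs <;> ring
  map_smul' c x := by
    funext z
    simp only [F, Pi.smul_apply, RingHom.id_apply, smul_eq_mul, ← tsum_mul_left]
    refine tsum_congr fun k => ?_
    simp only [coef, Prod.smul_fst, Prod.smul_snd, lp.coeFn_smul, Pi.smul_apply, smul_eq_mul]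
    split_ifs <;> ring

lemma inj : Function.Injective ι := by
  rw [injective_iff_map_eq_zero]
  intro x hx
  have h0 : F x =ᶠ[𝓝 0] 0 := by
    filter_upwards [ball_mem_nhds (0 : ℂ) one_pos] with z hz
    exact congrFun hx ⟨z, hz⟩
  have := ((ser x).hasFPowerSeriesAt.congr h0).eq_zero
  rw [FormalMultilinearSeries.ofScalars_series_eq_zero] at this
  have h1 : ∀ n, x.1 n = 0 := fun n => by
    have := congrFun this (2 * n + 1)
    simpa [coef, Nat.add_div] using this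
  have h2 : ∀ n, x.2 n = 0 := fun n => by
    have := congrFun this (2 * n)
    simpa [coef, h1, lam] using this
  exact Prod.ext (lp.ext (funext h1)) (lp.ext (funext h2))

lemma memA (x : E) : Memℓp (fun n => lam (2 * n + 1) * x.1 n) 1 :=
  (lp.memℓp x.1).mono' fun n => by
    rw [norm_mul]; exact mul_le_of_le_one_left (norm_nonneg _) (by simpa using nlam_le (Nat.zero_le _))

lemma bdB (x : E) (N : ℕ) (C : ℝ) (h1 : ∀ i, ‖x.1 i‖ ≤ C) (h2 : ∀ i < N, x.2 i = 0) (n : ℕ) :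
    ‖x.1 n + lam (2 * n) * x.2 n‖ ≤ C + (1 / 2) ^ N * ‖x‖ := by
  refine (norm_add_le _ _).trans (add_le_add (h1 n) ?_)
  rcases lt_or_ge n N with h | h
  · simp [h2 n h]
  · rw [norm_mul]; gcongr
    exacts [nlam_le (by omega), b_le x n]

lemma memB (x : E) : Memℓp (fun n => x.1 n + lam (2 * n) * x.2 n) ∞ :=
  memℓp_infty ⟨_, by rintro _ ⟨n, rfl⟩; exact bdB x 0 _ (a_le x) (by simp) n⟩

noncomputable def T0 : E →ₗ[ℂ] E where
  toFun x := (⟨_, memA x⟩, ⟨_, memB x⟩)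
  map_add' x y := by
    ext n <;> simp only [Prod.fst_add, Prod.snd_add, lp.coeFn_add, Pi.add_apply] <;> ring
  map_smul' c x := by
    ext n <;> simp only [Prod.smul_fst, Prod.smul_snd, lp.coeFn_smul, Pi.smul_apply, smul_eq_mul,
      RingHom.id_apply] <;> ring

lemma T0_le (x : E) (N : ℕ) (C : ℝ) (h1 : ∀ i, ‖x.1 i‖ ≤ C) (h2 : ∀ i < N, x.1 i = 0 ∧ x.2 i = 0) :
    ‖T0 x‖ ≤ C + (1 / 2) ^ N * ‖x‖ := by
  have hC : 0 ≤ C := (norm_nonneg _).trans (h1 0)
  refine norm_prod_le_iff.2 ⟨?_, lp.norm_le_of_forall_le (by positivity)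
    (bdB x N C h1 fun i hi => (h2 i hi).2)⟩
  have : ‖(T0 x).1‖ ≤ ‖lam N • x.1‖ := lp.norm_mono one_ne_zero fun n => by
    change ‖lam (2 * n + 1) * x.1 n‖ ≤ ‖lam N * x.1 n‖
    rcases lt_or_ge n N with h | h
    · simp [(h2 n h).1]
    · rw [norm_mul, norm_mul, nlam N]; gcongr; exact nlam_le (by omega)
  rw [norm_smul, nlam] at this
  have h3 : (1 / 2 : ℝ) ^ N * ‖x.1‖ ≤ (1 / 2) ^ N * ‖x‖ := by gcongr; exact norm_fst_le x
  linarith

noncomputable def T : E →L[ℂ] E := T0.mkContinuous 2 fun x => by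
  have := T0_le x 0 _ (a_le x) (by simp)
  linarith

lemma coefT (x : E) (k : ℕ) : coef (T x) k = lam k * coef x k := by
  change (if k % 2 = 0 then lam (2 * (k / 2) + 1) * x.1 (k / 2) + lam (k + 1) *
    (x.1 (k / 2) + lam (2 * (k / 2)) * x.2 (k / 2)) else lam (2 * (k / 2) + 1) * x.1 (k / 2)) = _
  unfold coef
  split_ifs with h
  · rw [show 2 * (k / 2) = k by omega]; simp only [lam, pow_succ]; ring
  · rw [show 2 * (k / 2) + 1 = k by omega]

lemma van (M : Submodule ℂ E) (hM : ¬ FiniteDimensional ℂ M) (N : ℕ) :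
    ∃ x ∈ M, x ≠ 0 ∧ ∀ i < N, x.1 i = 0 ∧ x.2 i = 0 := by
  let L : M →ₗ[ℂ] (Fin N → ℂ × ℂ) :=
    { toFun := fun x i => (x.1.1 i, x.1.2 i), map_add' := fun _ _ => rfl, map_smul' := fun _ _ => rfl }
  have : ¬ Function.Injective L := fun h => hM (FiniteDimensional.of_injective L h)
  rw [injective_iff_map_eq_zero] at this
  push Not at this
  obtain ⟨x, h1, h2⟩ := this
  refine ⟨x, x.2, fun h => h2 (Subtype.ext h), fun i hi => ?_⟩
  exact Prod.ext_iff.1 (congrFun h1 ⟨i, hi⟩)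

lemma ss : StrictlySingular T := by
  rintro ⟨M, c, -, hM, hc, h⟩
  obtain ⟨N, hN⟩ := exists_pow_lt_of_lt_one (half_pos hc) (by norm_num : (1 / 2 : ℝ) < 1)
  have H : ∀ x ∈ M, (∀ i < N, x.1 i = 0 ∧ x.2 i = 0) → ∀ C, (∀ i, ‖x.1 i‖ ≤ C) →
      c / 2 * ‖x‖ ≤ C := by
    intro x hx h2 C h1
    have h3 : c * ‖x‖ ≤ _ := (h x hx).trans (T0_le x N C h1 h2)
    nlinarith [norm_nonneg x]
  have P : ∀ m : ℕ, ∃ x ∈ M, (∀ i < N, x.1 i = 0 ∧ x.2 i = 0) ∧ (∀ i, ‖x.1 i‖ ≤ 1) ∧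
      ∃ K, (m : ℝ) / 8 ≤ ∑ i ∈ Finset.range K, ‖x.1 i‖ := by
    intro m
    induction m with
    | zero => exact ⟨0, M.zero_mem, by simp, by simp, 0, by simp⟩
    | succ m ih =>
      obtain ⟨x, hx, h2, h1, K, hK⟩ := ih
      have ht : Tendsto (fun i => ‖x.1 i‖) atTop (𝓝 0) := by
        simpa using ((lp.memℓp x.1).summable (by simp)).tendsto_atTop_zero
      obtain ⟨N1, hN1⟩ := eventually_atTop.1 (ht.eventually (ge_mem_nhds (by norm_num : (0 : ℝ) < 1 / 4)))
      obtain ⟨y, hy, hy0, hv⟩ := van M hM (N + N1 + K)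
      let J : B := lp.linearMapOfLE ℂ _ le_top y.1
      have hJ : ∀ i, ‖y.1 i‖ ≤ ‖J‖ := fun i => lp.norm_apply_le_norm ENNReal.top_ne_zero J i
      have hS : 0 < ‖J‖ := lt_of_lt_of_le (mul_pos (half_pos hc) (norm_pos_iff.2 hy0))
        (H y hy (fun i hi => hv i (by omega)) _ hJ)
      obtain ⟨j, hj⟩ : ∃ j, ‖J‖ / 2 < ‖y.1 j‖ := by
        by_contra h0
        push Not at h0
        have : ‖J‖ ≤ ‖J‖ / 2 := lp.norm_le_of_forall_le (by positivity) h0
        linarith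
      have hjK : N + N1 + K ≤ j := by
        by_contra h0
        rw [(hv j (by omega)).1, norm_zero] at hj; linarith
      set t : ℝ := 3 / (4 * ‖J‖)
      have ht0 : 0 < t := by positivity
      have htJ : t * ‖J‖ = 3 / 4 := by simp only [t]; field_simp
      have e : ∀ i, (x + (t : ℂ) • y).1 i = x.1 i + t * y.1 i := fun i => rfl
      have e2 : ∀ i, (x + (t : ℂ) • y).2 i = x.2 i + t * y.2 i := fun i => rfl
      have n1 : ∀ i, ‖(t : ℂ) * y.1 i‖ = t * ‖y.1 i‖ := fun i => by simp [ht0.le]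
      refine ⟨x + (t : ℂ) • y, M.add_mem hx (M.smul_mem _ hy), fun i hi => ?_, fun i => ?_,
        j + 1, ?_⟩
      · rw [e, e2]; simp [h2 i hi, hv i (by omega)]
      · rw [e]
        rcases lt_or_ge i N1 with h0 | h0
        · simpa [(hv i (by omega)).1] using h1 i
        · refine (norm_add_le _ _).trans ?_
          have := hN1 i h0
          rw [n1]; nlinarith [hJ i]
      · rw [Finset.sum_range_succ]
        have a1 : ∑ i ∈ Finset.range K, ‖x.1 i‖ ≤ ∑ i ∈ Finset.range j, ‖(x + (t : ℂ) • y).1 i‖ := by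
          refine le_trans (Finset.sum_congr rfl fun i hi => ?_).le
            (Finset.sum_le_sum_of_subset_of_nonneg (Finset.range_mono (by omega : K ≤ j))
              fun _ _ _ => norm_nonneg _)
          rw [e]; simp [(hv i (by have := Finset.mem_range.1 hi; omega)).1]
        have a2 := norm_sub_le ((x + (t : ℂ) • y).1 j) (x.1 j)
        rw [e, add_sub_cancel_left, n1, ← e] at a2
        have := hN1 j (by omega)
        push_cast; nlinarith
  obtain ⟨m, hm⟩ := exists_nat_gt (16 / c)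
  obtain ⟨x, hx, h2, h1, K, hK⟩ := P m
  have a1 := H x hx h2 1 h1
  have a2 := lp.sum_rpow_le_norm_rpow (p := 1) (by simp) x.1 (Finset.range K)
  simp only [ENNReal.toReal_one, Real.rpow_one] at a2
  rw [div_lt_iff₀ hc] at hm
  nlinarith [norm_fst_le x]

lemma nc : ¬ IsCompactOperator T := by
  intro h
  obtain ⟨K, hK, hs⟩ := IsCompactOperator.image_closedBall_subset_compact (f := T.toLinearMap) h 1
  let u : ℕ → E := fun n => (lp.single 1 n 1, 0)
  obtain ⟨y, -, φ, hφ, ht⟩ := hK.tendsto_subseq (x := fun n => T (u n)) fun n =>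
    hs ⟨u n, by simp [u, lp.norm_single], rfl⟩
  obtain ⟨N, hN⟩ := Metric.cauchySeq_iff'.1 ht.cauchySeq 1 one_pos
  have h1 := hN (N + 1) (by omega)
  rw [dist_eq_norm] at h1
  have h2 := b_le (T (u (φ (N + 1))) - T (u (φ N))) (φ N)
  have h3 : (T (u (φ (N + 1))) - T (u (φ N))).2 (φ N) = -1 := by
    change (u (φ (N + 1))).1 (φ N) + _ * (0 : ℂ) - ((u (φ N)).1 (φ N) + _ * (0 : ℂ)) = -1
    simp [u, lp.single_apply, (hφ (Nat.lt_succ_self N)).ne]
  rw [h3] at h2
  simp only [Function.comp] at h1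
  simp at h2; linarith

theorem result : ∃ (E : Type) (_ : NormedAddCommGroup E) (_ : NormedSpace ℂ E)
    (_ : CompleteSpace E) (ι : E →ₗ[ℂ] (ball (0 : ℂ) 1 → ℂ)) (φ : ℂ → ℂ)
    (hφ : Set.MapsTo φ (ball 0 1) (ball 0 1)) (T : E →L[ℂ] E),
    Function.Injective ι ∧
    (∀ f, ∃ F : ℂ → ℂ, AnalyticOnNhd ℂ F (ball 0 1) ∧ ∀ z, ι f z = F z) ∧
    (∀ z, Continuous fun f => ι f z) ∧ AnalyticOnNhd ℂ φ (ball 0 1) ∧
    (∀ f z, ι (T f) z = ι f ⟨φ z, hφ z.2⟩) ∧
    StrictlySingular T ∧ ¬ IsCompactOperator T := by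
  refine ⟨E, inferInstance, inferInstance, inferInstance, ι, fun z => 1 / 2 * z, fun z hz => ?_, T,
    inj, fun f => ⟨F f, ?_, fun _ => rfl⟩, fun z => ?_, fun z _ => by fun_prop, fun f z => ?_,
    ss, nc⟩
  · simp only [mem_ball_zero_iff, norm_mul] at hz ⊢
    norm_num; linarith
  · have := (ser f).analyticOnNhd
    rwa [← ENNReal.ofReal_one, Metric.eball_ofReal] at this
  · have hz : ‖z.1‖ < 1 := mem_ball_zero_iff.1 z.2
    refine AddMonoidHomClass.continuous_of_bound ((LinearMap.proj z).comp ι) (2 * (1 - ‖z.1‖)⁻¹)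
      fun x => ?_
    have := tsum_of_norm_bounded ((hasSum_geometric_of_lt_one (norm_nonneg _) hz).mul_left
      (2 * ‖x‖)) (bd x z)
    exact this.trans (by ring_nf; rfl)
  · refine tsum_congr fun k => ?_
    simp only [coefT, lam, mul_pow]; ring

end Pool.Agent.Results.MP_628ecd_an.Q1
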